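import Pool.Agent.H15.KW.C

/-!
# Convexity of the workloads with general arrivals and for functions of two variables

In a stationary `k`-server queue (Kiefer-Wolfowitz recursion) in which the service time `S` of a
customer is independent of the workload vector `W` found by the customer and is not identically
zero, while the interarrival time `T ≥ 0` is arbitrary (it may depend on `W` and `S`), the means
`E W_1, …, E W_k` form a convex sequence, and so do `E G(W_1), …, E G(W_k)` for every convex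
nondecreasing function `G` with `G(0) = 0`, and `E Φ(W_1, W_1), …, E Φ(W_1, W_k)` for every
functional `Φ(m, x) = ∫_m^x ρ(v - m, v) dv` whose density `ρ ≥ 0` is nondecreasing in the height
`v - m` above the least load and in the level `v`.  The GI/GI/k queue of Q1 is a special case.
-/

set_option autoImplicit false

open MeasureTheory Set
open scoped ENNReal

namespace Pool.Agent.Results.MP_a2bed5_pr.GeneralArrivals

/-- The workloads after the arriving customer has joined the least loaded server (number `0`) and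
the time `t` has passed, before sorting. -/
def unsorted {n : ℕ} (w : Fin (n+1) → ℝ) (s t : ℝ) : Fin (n+1) → ℝ :=
  fun j => max (w j + (if j = 0 then s else 0) - t) 0

/-- The Kiefer-Wolfowitz map: the increasing rearrangement of `unsorted w s t`. -/
noncomputable def step {n : ℕ} (w : Fin (n+1) → ℝ) (s t : ℝ) : Fin (n+1) → ℝ :=
  unsorted w s t ∘ Tuple.sort (unsorted w s t)

/-- `P` is the law of a triple `(W, S, T)`, where `W` has the law `π` and `S` the law `μS`, `W` and
`S` are independent, `T ≥ 0` (nothing else is assumed about `T`, which may depend on `W` and `S`),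
and the next workload vector `step W S T` has the law `π` again. -/
structure Stationary {n : ℕ} (π : Measure (Fin (n+1) → ℝ)) (μS : Measure ℝ)
    (P : Measure ((Fin (n+1) → ℝ) × ℝ × ℝ)) : Prop where
  prob : IsProbabilityMeasure P
  indep : P.map (fun x => (x.1, x.2.1)) = π.prod μS
  nonneg : ∀ᵐ x ∂P, 0 ≤ x.2.2
  invariant : P.map (fun x => step x.1 x.2.1 x.2.2) = π

/-- The primitive `G(x) = ∫_0^x r(y) dy` of `r ≥ 0`. -/
noncomputable def primitive (r : ℝ → ℝ≥0∞) (x : ℝ) : ℝ≥0∞ := ∫⁻ y in Ico 0 x, r y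

/-- `Φ(m, x) = ∫_0^(x-m) ρ(y, m + y) dy`: the density `ρ` is a function of the height `y` above the
least load `m` and of the level `m + y`. -/
noncomputable def functional (ρ : ℝ → ℝ → ℝ≥0∞) (m x : ℝ) : ℝ≥0∞ :=
  ∫⁻ y in Ico 0 (x - m), ρ y (m + y)

/-- Let `S ≥ 0` be not almost surely zero.  (1) If `(W, S, T)` is stationary as above, then for
three successive indices `i, j, l` one has `2 E W_j ≤ E W_i + E W_l`; for every nondecreasing
`r : ℝ → [0, ∞]` with primitive `G`, also `2 E G(W_j) ≤ E G(W_i) + E G(W_l)` and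
`2 E G(W_j - W_0) ≤ E G(W_i - W_0) + E G(W_l - W_0)`; and
`2 E Φ(W_0, W_j) ≤ E Φ(W_0, W_i) + E Φ(W_0, W_l)` for the functional `Φ` of every measurable
density `ρ` that is nondecreasing in both variables.  Expectations are taken in `[0, ∞]`.
(2) The GI/GI/k queue (`W`, `S`, `T` independent, `T ≥ 0`) in its stationary regime is a special
case. -/
theorem result (n : ℕ) (π : Measure (Fin (n+1) → ℝ)) [IsProbabilityMeasure π] (μS : Measure ℝ)
    [IsProbabilityMeasure μS] (hS : μS (Iio 0) = 0) (hS0 : μS (Ioi 0) ≠ 0) :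
    (∀ P : Measure ((Fin (n+1) → ℝ) × ℝ × ℝ), Stationary π μS P →
      ∀ i j l : Fin (n+1), (j : ℕ) = i + 1 → (l : ℕ) = j + 1 →
        2 * ∫⁻ w, ENNReal.ofReal (w j) ∂π ≤
          ∫⁻ w, ENNReal.ofReal (w i) ∂π + ∫⁻ w, ENNReal.ofReal (w l) ∂π ∧
        (∀ r : ℝ → ℝ≥0∞, Monotone r →
          2 * ∫⁻ w, primitive r (w j) ∂π ≤
            ∫⁻ w, primitive r (w i) ∂π + ∫⁻ w, primitive r (w l) ∂π ∧
          2 * ∫⁻ w, primitive r (w j - w 0) ∂π ≤
            ∫⁻ w, primitive r (w i - w 0) ∂π + ∫⁻ w, primitive r (w l - w 0) ∂π) ∧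
        ∀ ρ : ℝ → ℝ → ℝ≥0∞, Measurable (fun p : ℝ × ℝ => ρ p.1 p.2) →
          Monotone (fun p : ℝ × ℝ => ρ p.1 p.2) →
          2 * ∫⁻ w, functional ρ (w 0) (w j) ∂π ≤
            ∫⁻ w, functional ρ (w 0) (w i) ∂π + ∫⁻ w, functional ρ (w 0) (w l) ∂π) ∧
    ∀ μT : Measure ℝ, IsProbabilityMeasure μT → μT (Iio 0) = 0 →
      (π.prod (μS.prod μT)).map (fun x => step x.1 x.2.1 x.2.2) = π →
      Stationary π μS (π.prod (μS.prod μT)) := by
  refine ⟨?_, ?_⟩
  · rintro P ⟨hp, h1, h2, h3⟩ i j l hij hjl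
    have hF : ∀ x : (Fin (n+1) → ℝ) × ℝ × ℝ, Monotone (step x.1 x.2.1 x.2.2) ∧
        ∃ σ : Equiv.Perm (Fin (n+1)),
          step x.1 x.2.1 x.2.2 = Pool.Agent.H.MP_a2bed5_pr.raw x.1 x.2.1 x.2.2 ∘ σ :=
      fun _ => ⟨Tuple.monotone_sort _, Tuple.sort _, rfl⟩
    exact ⟨Pool.Agent.H15.KW.main π μS P _ h1 hS h2 hS0 hF h3 i j l hij hjl,
      fun r hr => ⟨Pool.Agent.H15.KW.mainA π μS P _ h1 hS h2 hS0 hF h3 hr i j l hij hjl,
        Pool.Agent.H15.KW.mainR π μS P _ h1 hS h2 hS0 hF h3 hr i j l hij hjl⟩,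
      fun ρ hρm hρ => Pool.Agent.H15.KW.mainG π μS P _ h1 hS h2 hS0 hF h3 hρ hρm i j l hij hjl⟩
  · intro μT hμT hT0 hst
    refine ⟨inferInstance, ?_, ?_, hst⟩
    · have h := Measure.map_prod_map π (μS.prod μT) measurable_id
        (measurable_fst : Measurable (Prod.fst : ℝ × ℝ → ℝ))
      rw [Measure.map_id, Measure.map_fst_prod, measure_univ, one_smul] at h
      rw [h]
      rfl
    · have h1 : ∀ᵐ t ∂μT, 0 ≤ t := by
        rw [ae_iff]; simpa [Iio] using hT0
      exact Measure.quasiMeasurePreserving_snd (μ := π) (ν := μS.prod μT) |>.ae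
        (Measure.quasiMeasurePreserving_snd (μ := μS) (ν := μT) |>.ae h1)

end Pool.Agent.Results.MP_a2bed5_pr.GeneralArrivals
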